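import Pool.Agent.Lib.MP_4cd976_an.DN.RAD
import Pool.Agent.Lib.MP_4cd976_an.Own.Lewy

section
/-!
# A winding argument and the core covering theorem
-/
set_option autoImplicit false

open Complex Metric Set Filter Topology

namespace Pool.Agent.Lib.MP4cd976

/-- A closed curve with a continuous logarithm cannot run from the negative half-axis to the
positive half-axis in the closed lower half-plane and back in the closed upper half-plane. -/
theorem no_wind {Λ : ℝ → ℂ} (hΛ : Continuous Λ) {a b c : ℝ} (hab : a ≤ b) (hbc : b ≤ c)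
    (hper : Λ c = Λ a)
    (hlow : ∀ t ∈ Icc a b, (Complex.exp (Λ t)).im ≤ 0)
    (hupp : ∀ t ∈ Icc b c, 0 ≤ (Complex.exp (Λ t)).im)
    (ha : (Complex.exp (Λ a)).re < 0) (hb : 0 < (Complex.exp (Λ b)).re) : False := by
  set ϑ : ℝ → ℝ := fun t => (Λ t).im with hϑ
  have hϑc : Continuous ϑ := Complex.continuous_im.comp hΛ
  have him : ∀ t, (Complex.exp (Λ t)).im = Real.exp (Λ t).re * Real.sin (ϑ t) := fun t =>
    Complex.exp_im _
  have hre : ∀ t, (Complex.exp (Λ t)).re = Real.exp (Λ t).re * Real.cos (ϑ t) := fun t =>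
    Complex.exp_re _
  have hlow' : ∀ t ∈ Icc a b, Real.sin (ϑ t) ≤ 0 := by
    intro t ht
    have := hlow t ht
    rw [him] at this
    by_contra hcon
    push Not at hcon
    have := mul_pos (Real.exp_pos (Λ t).re) hcon
    linarith
  have hupp' : ∀ t ∈ Icc b c, 0 ≤ Real.sin (ϑ t) := by
    intro t ht
    have := hupp t ht
    rw [him] at this
    by_contra hcon
    push Not at hcon
    have := mul_neg_of_pos_of_neg (Real.exp_pos (Λ t).re) hcon
    linarith
  have hperϑ : ϑ c = ϑ a := by simp only [hϑ, hper]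
  have ha' : Real.cos (ϑ a) < 0 := by
    rw [hre] at ha
    by_contra hcon
    push Not at hcon
    have := mul_nonneg (Real.exp_pos (Λ a).re).le hcon
    linarith
  have hb' : 0 < Real.cos (ϑ b) := by
    rw [hre] at hb
    by_contra hcon
    push Not at hcon
    have := mul_nonpos_of_nonneg_of_nonpos (Real.exp_pos (Λ b).re).le hcon
    linarith
  have hsb : Real.sin (ϑ b) = 0 :=
    le_antisymm (hlow' b ⟨hab, le_rfl⟩) (hupp' b ⟨le_rfl, hbc⟩)
  have hsa : Real.sin (ϑ a) = 0 := by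
    refine le_antisymm (hlow' a ⟨le_rfl, hab⟩) ?_
    rw [← hperϑ]
    exact hupp' c ⟨hbc, le_rfl⟩
  obtain ⟨k, hk⟩ := Real.sin_eq_zero_iff.mp hsa
  obtain ⟨l, hl⟩ := Real.sin_eq_zero_iff.mp hsb
  have hpi := Real.pi_pos
  have hne : k ≠ l := by
    rintro rfl
    rw [← hk] at ha'
    rw [← hl] at hb'
    linarith
  rcases lt_or_gt_of_ne hne with h | h
  · -- ϑ b ≥ ϑ a + π: go back on [b, c]
    have h1 : (k : ℝ) + 1 ≤ l := by exact_mod_cast h
    have h2 : ϑ b - Real.pi / 2 ∈ Icc (ϑ c) (ϑ b) := by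
      constructor
      · rw [hperϑ, ← hk, ← hl]; nlinarith
      · linarith
    have h3 := intermediate_value_Icc' hbc (hϑc.continuousOn) h2
    obtain ⟨t, ht, hte⟩ := h3
    have h4 := hupp' t ht
    rw [hte, Real.sin_sub_pi_div_two] at h4
    linarith
  · have h1 : (l : ℝ) + 1 ≤ k := by exact_mod_cast h
    have h2 : ϑ a - Real.pi / 2 ∈ Icc (ϑ b) (ϑ a) := by
      constructor
      · rw [← hk, ← hl]; nlinarith
      · linarith
    have h3 := intermediate_value_Icc' hab (hϑc.continuousOn) h2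
    obtain ⟨t, ht, hte⟩ := h3
    have h4 := hlow' t ht
    rw [hte, Real.sin_sub_pi_div_two] at h4
    linarith

/-- **Core covering theorem** on the closed disc, horizontal line. -/
theorem core {F p G : ℂ → ℂ} {R : ℝ} (hR : 1 < R)
    (hF : DifferentiableOn ℂ F (ball 0 R)) (hF0 : F 0 = 0)
    (hp : DifferentiableOn ℂ p (ball 0 R)) (hp0 : p 0 = 1)
    (hpos : ∀ z ∈ ball (0 : ℂ) R, 0 < (p z).re)
    (hG : ∀ z ∈ ball (0 : ℂ) R, HasDerivAt G (p z * deriv F z) z) (hG0 : G 0 = 0)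
    {w : ℂ} (hw : ∀ z ∈ ball (0 : ℂ) R, (⟨(G z).re, (F z).im⟩ : ℂ) ≠ w)
    {θ₁ θ₂ : ℝ} (h₁₂ : θ₁ ≤ θ₂) (h₂₁ : θ₂ ≤ θ₁ + 2 * Real.pi)
    (hlow : ∀ t ∈ Icc θ₁ θ₂, (F (Complex.exp (t * I)) - w).im ≤ 0)
    (hupp : ∀ t ∈ Icc θ₂ (θ₁ + 2 * Real.pi), 0 ≤ (F (Complex.exp (t * I)) - w).im) :
    ‖deriv F 0‖ ≤ 6 * ‖w‖ := by
  by_contra hcon
  push Not at hcon
  have hper : ∀ t : ℝ, Complex.exp ((t + 2 * Real.pi : ℝ) * I) = Complex.exp (t * I) := by
    intro t
    push_cast
    rw [add_mul, Complex.exp_add, Complex.exp_two_pi_mul_I, mul_one]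
  have hcirc : ∀ α : ℝ, Complex.exp (α * I) ∈ ball (0 : ℂ) R := by
    intro α
    simpa [Complex.norm_exp] using hR
  -- first crossing
  have hA : (G (Complex.exp (θ₁ * I))).re ≤ w.re :=
    re_le_of_ray hR hF hp hp0 hpos hG hG0 fun α hα =>
      (onePole hR hF hF0 h₁₂ h₂₁ hlow hupp hcon hα).le
  -- second crossing, by reflection
  have hB : w.re ≤ (G (Complex.exp (θ₂ * I))).re := by
    have hF' : DifferentiableOn ℂ (fun z => -F z) (ball 0 R) := hF.neg
    have hderiv : ∀ z, deriv (fun z => -F z) z = -deriv F z := fun z => by simp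
    have hG' : ∀ z ∈ ball (0 : ℂ) R, HasDerivAt (fun z => -G z) (p z * deriv (fun z => -F z) z) z := by
      intro z hz
      rw [hderiv]
      exact (hG z hz).neg.congr_deriv (by ring)
    have h1 := re_le_of_ray (x := (-w).re) (θ := θ₂) hR hF' hp hp0 hpos hG' (by simp [hG0])
      (fun α hα => (onePole (F := fun z => -F z) (w := -w) (θ₁ := θ₂) (θ₂ := θ₁ + 2 * Real.pi)
        hR hF' (by simp [hF0]) h₂₁ (by linarith) (by
          intro t ht
          have := hupp t ht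
          simp only [Complex.sub_im, Complex.neg_im] at this ⊢
          linarith) (by
          intro t ht
          have h2 := hlow (t - 2 * Real.pi) ⟨by linarith [ht.1], by linarith [ht.2]⟩
          have h3 := hper (t - 2 * Real.pi)
          rw [show (t - 2 * Real.pi + 2 * Real.pi : ℝ) = t by ring] at h3
          rw [← h3] at h2
          simp only [Complex.sub_im, Complex.neg_im] at h2 ⊢
          linarith) (by rw [hderiv, norm_neg, norm_neg]; exact hcon) hα).le)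
    simp only [Complex.neg_re] at h1
    linarith
  -- the curve
  set c : ℂ → ℂ := fun z => (⟨(G z).re, (F z).im⟩ : ℂ) - w with hc
  have hcc : ContinuousOn c (ball 0 R) := by
    have hGc : ContinuousOn G (ball 0 R) := fun z hz => (hG z hz).continuousAt.continuousWithinAt
    have e : c = fun z => ((G z).re : ℂ) + ((F z).im : ℂ) * I - w := by
      ext z
      simp only [hc]
      congr 1
      apply Complex.ext <;> simp
    rw [e]
    have h1 : ContinuousOn (fun z => ((G z).re : ℂ)) (ball 0 R) :=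
      Complex.continuous_ofReal.comp_continuousOn (Complex.continuous_re.comp_continuousOn hGc)
    have h2 : ContinuousOn (fun z => ((F z).im : ℂ)) (ball 0 R) :=
      Complex.continuous_ofReal.comp_continuousOn
        (Complex.continuous_im.comp_continuousOn hF.continuousOn)
    exact (h1.add (h2.mul continuousOn_const)).sub continuousOn_const
  have hc0 : (0 : ℂ) ∉ c '' ball 0 R := by
    rintro ⟨z, hz, hz0⟩
    exact hw z hz (sub_eq_zero.mp hz0)
  have hsc : IsSimplyConnected (ball (0 : ℂ) R) := by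
    have h1 : ContractibleSpace (ball (0 : ℂ) R) :=
      (convex_ball (0 : ℂ) R).contractibleSpace ⟨0, mem_ball_self (by linarith)⟩
    exact SimplyConnectedSpace.ofContractible _
  obtain ⟨L, hLc, hL⟩ := Complex.exists_continuousOn_eqOn_exp_comp hsc isOpen_ball hcc hc0
  set Λ : ℝ → ℂ := fun t => L (Complex.exp (t * I)) with hΛ
  have hΛc : Continuous Λ := hLc.comp_continuous (by fun_prop) hcirc
  have hΛe : ∀ t : ℝ, Complex.exp (Λ t) = c (Complex.exp (t * I)) := fun t => hL (hcirc t)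
  have him : ∀ t : ℝ, (Complex.exp (Λ t)).im = (F (Complex.exp (t * I)) - w).im := by
    intro t
    rw [hΛe]
    simp [hc]
  have hre : ∀ t : ℝ, (Complex.exp (Λ t)).re = (G (Complex.exp (t * I))).re - w.re := by
    intro t
    rw [hΛe]
    simp [hc]
  have him1 : (F (Complex.exp (θ₁ * I)) - w).im = 0 := by
    refine le_antisymm (hlow _ ⟨le_rfl, h₁₂⟩) ?_
    have := hupp (θ₁ + 2 * Real.pi) ⟨h₂₁, le_rfl⟩
    rwa [hper] at this
  have him2 : (F (Complex.exp (θ₂ * I)) - w).im = 0 :=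
    le_antisymm (hlow _ ⟨h₁₂, le_rfl⟩) (hupp _ ⟨le_rfl, h₂₁⟩)
  have hA' : (Complex.exp (Λ θ₁)).re < 0 := by
    rw [hre]
    rcases (sub_nonpos.mpr hA).lt_or_eq with h | h
    · exact h
    · exfalso
      apply hw _ (hcirc θ₁)
      apply Complex.ext
      · simpa using sub_eq_zero.mp h
      · simpa [sub_eq_zero] using him1
  have hB' : 0 < (Complex.exp (Λ θ₂)).re := by
    rw [hre]
    rcases (sub_nonneg.mpr hB).lt_or_eq with h | h
    · exact h
    · exfalso
      apply hw _ (hcirc θ₂)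
      apply Complex.ext
      · simpa using (sub_eq_zero.mp h.symm)
      · simpa [sub_eq_zero] using him2
  exact no_wind hΛc h₁₂ h₂₁ (by simp only [hΛ, hper]) (fun t ht => by rw [him]; exact hlow t ht)
    (fun t ht => by rw [him]; exact hupp t ht) hA' hB'

end Pool.Agent.Lib.MP4cd976
end

section
/-!
# The half-line theorem for the shear data
-/
set_option autoImplicit false

open Complex Metric Set Filter Topology

namespace Pool.Agent.Lib.MP4cd976.HL

theorem sin_ge {β u : ℝ} (h2 : β ≤ Real.pi / 2) (hu1 : -β ≤ u)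
    (hu2 : u ≤ Real.pi + β) : -Real.sin β ≤ Real.sin u := by
  have h3 : |u - Real.pi / 2| ≤ Real.pi / 2 + β := abs_le.mpr ⟨by linarith, by linarith⟩
  have h4 : Real.cos (Real.pi / 2 + β) ≤ Real.cos |u - Real.pi / 2| :=
    Real.cos_le_cos_of_nonneg_of_le_pi (abs_nonneg _) (by linarith) h3
  rw [Real.cos_abs, Real.cos_sub_pi_div_two, add_comm, Real.cos_add_pi_div_two] at h4
  exact h4

/-- The slit map in the half-plane. -/
noncomputable def S (κ y0 : ℝ) (q : ℂ) : ℂ := -((κ : ℂ) / 4) * (q ^ 2 - 1) - I * y0 * (q - 1)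

theorem S_im (κ y0 : ℝ) (q : ℂ) : (S κ y0 q).im - y0 = -q.re * (κ / 2 * q.im + y0) := by
  have hcast : -((κ : ℂ) / 4) = ((-(κ / 4) : ℝ) : ℂ) := by push_cast; ring
  simp only [S, Complex.sub_im, mul_assoc I, Complex.I_mul_im, Complex.re_ofReal_mul,
    Complex.sub_re, Complex.one_re]
  rw [hcast, Complex.im_ofReal_mul, Complex.sub_im, sq, Complex.mul_im, Complex.one_im]
  ring

theorem S_deriv (κ y0 : ℝ) (q : ℂ) :
    HasDerivAt (S κ y0) (-((κ : ℂ) / 2) * q - I * y0) q := by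
  have e2 : HasDerivAt (fun q : ℂ => q ^ 2 - 1) (2 * q) q := by
    simpa using ((hasDerivAt_id q).fun_pow 2).sub_const 1
  have e3 : HasDerivAt (fun q : ℂ => q - 1) 1 q := (hasDerivAt_id q).sub_const 1
  refine ((e2.const_mul (-((κ : ℂ) / 4))).fun_sub (e3.const_mul (I * y0))).congr_deriv ?_
  ring

/-- The Cayley map. -/
noncomputable def Q (ζ : ℂ) : ℂ := (1 + ζ) / (1 - ζ)

theorem one_sub_ne {ζ : ℂ} (h : ‖ζ‖ < 1) : 1 - ζ ≠ 0 := by
  intro h0
  have : ζ = 1 := (sub_eq_zero.mp h0).symm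
  rw [this, norm_one] at h
  exact lt_irrefl _ h

theorem Q_deriv {ζ : ℂ} (h : ‖ζ‖ < 1) : HasDerivAt Q (2 / (1 - ζ) ^ 2) ζ := by
  have e1 : HasDerivAt (fun ζ : ℂ => 1 + ζ) 1 ζ := (hasDerivAt_id ζ).const_add 1
  have e2 : HasDerivAt (fun ζ : ℂ => 1 - ζ) (-1) ζ := (hasDerivAt_id ζ).const_sub 1
  refine (e1.fun_div e2 (one_sub_ne h)).congr_deriv ?_
  ring

theorem Q_back {ζ : ℂ} (h : ‖ζ‖ < 1) : (Q ζ - 1) / (Q ζ + 1) = ζ := by
  have h0 := one_sub_ne h
  have e1 : Q ζ + 1 = 2 / (1 - ζ) := by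
    rw [Q]; field_simp; ring
  have e2 : Q ζ - 1 = 2 * ζ / (1 - ζ) := by
    rw [Q]; field_simp; ring
  rw [e1, e2]
  field_simp

theorem Q_re (ζ : ℂ) : (Q ζ).re = (1 - normSq ζ) / normSq (1 - ζ) := by
  rw [Q, Complex.div_re, ← add_div]
  congr 1
  rw [normSq_apply]
  simp
  ring

theorem Q_im (ζ : ℂ) : (Q ζ).im = 2 * ζ.im / normSq (1 - ζ) := by
  rw [Q, Complex.div_im, ← sub_div]
  congr 1
  simp
  ring

theorem Q_re_pos {ζ : ℂ} (h : ‖ζ‖ < 1) : 0 < (Q ζ).re := by
  rw [Q_re]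
  apply div_pos
  · rw [normSq_eq_norm_sq]
    nlinarith [norm_nonneg ζ]
  · exact normSq_pos.mpr (one_sub_ne h)

/-- The covering theorem for the harmonic map with dilatation data `p` over the slit map. -/
theorem slit_core {κ : ℝ} {w : ℂ} {p Γ : ℂ → ℂ} (hκ : 0 < κ)
    (hp : DifferentiableOn ℂ p (ball 0 1)) (hp0 : p 0 = 1)
    (hpos : ∀ z ∈ ball (0 : ℂ) 1, 0 < (p z).re)
    (hΓ : ∀ q : ℂ, 0 ≤ q.re →
      HasDerivAt Γ (p ((q - 1) / (q + 1)) * (-((κ : ℂ) / 2) * q - I * w.im)) q)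
    (hposq : ∀ q : ℂ, 0 < q.re → 0 < (p ((q - 1) / (q + 1))).re)
    (hΓ1 : Γ 1 = 0) (hend : (Γ (((-(2 * w.im / κ) : ℝ) : ℂ) * I)).re ≤ w.re) :
    ‖(κ : ℂ) + 2 * I * w.im‖ ≤ 6 * ‖w‖ := by
  by_contra hcon
  push Not at hcon
  set y0 : ℝ := w.im with hy0
  set A : ℂ := (κ : ℂ) + 2 * I * y0 with hA
  set M : ℝ := ‖A‖ with hM
  have hM0 : 0 < M := lt_of_le_of_lt (by positivity) hcon
  have hAre : A.re = κ := by simp [hA]
  have hAim : A.im = 2 * y0 := by simp [hA]
  -- strict decrease along the ray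
  have hray : ∀ q : ℂ, 0 < q.re → q.im = -(2 * y0 / κ) → (Γ q).re < w.re := by
    intro q hq hqi
    set ys : ℝ := -(2 * y0 / κ) with hys
    have hqe : q = (q.re : ℂ) + (ys : ℂ) * I := by
      apply Complex.ext <;> simp [hqi]
    have hr : ∀ t : ℝ, 0 ≤ t → HasDerivAt (fun t : ℝ => (Γ ((t : ℂ) + (ys : ℂ) * I)).re)
        ((p ((((t : ℂ) + (ys : ℂ) * I) - 1) / (((t : ℂ) + (ys : ℂ) * I) + 1))).re
          * (-(κ / 2) * t)) t := by
      intro t ht
      have e1 : HasDerivAt (fun t : ℝ => (t : ℂ) + (ys : ℂ) * I) 1 t := by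
        simpa using (Complex.ofRealCLM.hasDerivAt (x := t)).add_const ((ys : ℂ) * I)
      have e2 := (hΓ ((t : ℂ) + (ys : ℂ) * I) (by simpa using ht)).comp t e1
      have e3 := Complex.reCLM.hasFDerivAt.comp_hasDerivAt t e2
      refine e3.congr_deriv ?_
      have hκc : (κ : ℂ) ≠ 0 := by exact_mod_cast hκ.ne'
      have e4 : -((κ : ℂ) / 2) * ((t : ℂ) + (ys : ℂ) * I) - I * y0 = ((-(κ / 2) * t : ℝ) : ℂ) := by
        rw [hys]
        push_cast
        field_simp
        ring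
      rw [e4, mul_one, Complex.reCLM_apply, Complex.re_mul_ofReal]
    have hanti : StrictAntiOn (fun t : ℝ => (Γ ((t : ℂ) + (ys : ℂ) * I)).re) (Ici 0) := by
      refine strictAntiOn_of_deriv_neg (convex_Ici 0)
        (fun x hx => (hr x hx).continuousAt.continuousWithinAt) ?_
      intro x hx
      rw [interior_Ici] at hx
      have hx' : 0 < x := hx
      rw [(hr x hx'.le).deriv]
      refine mul_neg_of_pos_of_neg (hposq _ (by simpa using hx')) ?_
      have : 0 < κ / 2 * x := by positivity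
      linarith
    have h1 := hanti (mem_Ici.mpr le_rfl) (mem_Ici.mpr hq.le) hq
    simp only [Complex.ofReal_zero, zero_add] at h1
    rw [← hqe] at h1
    exact h1.trans_le hend
  -- choose the dilation
  set ρ : ℝ := (1 + 6 * ‖w‖ / M) / 2 with hρ
  have hwM : 6 * ‖w‖ / M < 1 := (div_lt_one hM0).mpr hcon
  have hwM0 : 0 ≤ 6 * ‖w‖ / M := by positivity
  have hρ0 : 0 < ρ := by rw [hρ]; linarith
  have hρ1 : ρ < 1 := by rw [hρ]; linarith
  have hρM : 6 * ‖w‖ < ρ * M := by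
    have : 6 * ‖w‖ / M * M = 6 * ‖w‖ := by field_simp
    rw [hρ]
    nlinarith
  have hR : 1 < 1 / ρ := by rw [lt_div_iff₀ hρ0]; linarith
  have hmem : ∀ z ∈ ball (0 : ℂ) (1 / ρ), ‖(ρ : ℂ) * z‖ < 1 := by
    intro z hz
    rw [mem_ball_zero_iff, lt_div_iff₀ hρ0] at hz
    rw [norm_mul, Complex.norm_real, Real.norm_eq_abs, abs_of_pos hρ0]
    linarith
  set F₁ : ℂ → ℂ := fun z => S κ y0 (Q (ρ * z)) with hF₁
  set G₁ : ℂ → ℂ := fun z => Γ (Q (ρ * z)) with hG₁
  have hmulρ : ∀ z : ℂ, HasDerivAt (fun z : ℂ => (ρ : ℂ) * z) ρ z := fun z => by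
    simpa using (hasDerivAt_id z).const_mul (ρ : ℂ)
  have hQρ : ∀ z ∈ ball (0 : ℂ) (1 / ρ),
      HasDerivAt (fun z : ℂ => Q (ρ * z)) (2 / (1 - ρ * z) ^ 2 * ρ) z := fun z hz =>
    (Q_deriv (hmem z hz)).comp z (hmulρ z)
  have hF₁d : ∀ z ∈ ball (0 : ℂ) (1 / ρ), HasDerivAt F₁
      ((-((κ : ℂ) / 2) * Q (ρ * z) - I * y0) * (2 / (1 - ρ * z) ^ 2 * ρ)) z := fun z hz =>
    (S_deriv κ y0 _).comp z (hQρ z hz)
  have hG₁d : ∀ z ∈ ball (0 : ℂ) (1 / ρ), HasDerivAt G₁ (p (ρ * z) * deriv F₁ z) z := by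
    intro z hz
    rw [(hF₁d z hz).deriv]
    refine ((hΓ _ (Q_re_pos (hmem z hz)).le).comp z (hQρ z hz)).congr_deriv ?_
    rw [Q_back (hmem z hz)]
    ring
  have hp₁ : DifferentiableOn ℂ (fun z : ℂ => p (ρ * z)) (ball 0 (1 / ρ)) := by
    refine hp.comp (fun z _ => (hmulρ z).differentiableAt.differentiableWithinAt) ?_
    intro z hz
    exact mem_ball_zero_iff.mpr (hmem z hz)
  have hQ0 : Q 0 = 1 := by simp [Q]
  have h0R : (0 : ℂ) ∈ ball (0 : ℂ) (1 / ρ) := mem_ball_self (by positivity)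
  -- the angles
  have hyw : |y0| ≤ ‖w‖ := Complex.abs_im_le_norm w
  set s : ℝ := y0 * (1 + ρ ^ 2) / (ρ * M) with hs
  have hρMpos : 0 < ρ * M := by positivity
  have hs1 : |s| ≤ 1 := by
    rw [hs, abs_div, abs_of_pos hρMpos, div_le_one hρMpos, abs_mul,
      abs_of_pos (by positivity : 0 < 1 + ρ ^ 2)]
    have : 1 + ρ ^ 2 ≤ 2 := by nlinarith
    nlinarith [abs_nonneg y0, norm_nonneg w]
  set β₀ : ℝ := Real.arcsin s with hβ₀
  have hsinβ : Real.sin β₀ = s := Real.sin_arcsin (abs_le.mp hs1).1 (abs_le.mp hs1).2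
  have hβ1 : -(Real.pi / 2) ≤ β₀ := Real.neg_pi_div_two_le_arcsin s
  have hβ2 : β₀ ≤ Real.pi / 2 := Real.arcsin_le_pi_div_two s
  set δ : ℝ := A.arg with hδ
  have hcosδ : M * Real.cos δ = κ := by rw [hM, hδ, Complex.norm_mul_cos_arg, hAre]
  have hsinδ : M * Real.sin δ = 2 * y0 := by rw [hM, hδ, Complex.norm_mul_sin_arg, hAim]
  -- the sign along the circle
  have hsign : ∀ t : ℝ, ∃ N > 0, (F₁ (Complex.exp (t * I)) - w).im
      = -(N * (y0 * (1 + ρ ^ 2) + ρ * M * Real.sin (t - δ))) := by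
    intro t
    have hζn : ‖(ρ : ℂ) * Complex.exp (t * I)‖ < 1 := by
      rw [norm_mul, Complex.norm_exp_ofReal_mul_I, Complex.norm_real, Real.norm_eq_abs,
        abs_of_pos hρ0, mul_one]
      exact hρ1
    set ζ : ℂ := (ρ : ℂ) * Complex.exp (t * I) with hζ
    have hNpos : 0 < normSq (1 - ζ) := normSq_pos.mpr (one_sub_ne hζn)
    have hQpos := Q_re_pos hζn
    have hζre : ζ.re = ρ * Real.cos t := by
      rw [hζ, Complex.re_ofReal_mul, Complex.exp_ofReal_mul_I_re]
    have hζim : ζ.im = ρ * Real.sin t := by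
      rw [hζ, Complex.im_ofReal_mul, Complex.exp_ofReal_mul_I_im]
    have hNe : normSq (1 - ζ) = 1 - 2 * ρ * Real.cos t + ρ ^ 2 := by
      rw [normSq_apply]
      simp only [Complex.sub_re, Complex.sub_im, Complex.one_re, Complex.one_im, hζre, hζim]
      have := Real.sin_sq_add_cos_sq t
      linear_combination ρ ^ 2 * this
    refine ⟨(Q ζ).re / normSq (1 - ζ), by positivity, ?_⟩
    rw [Complex.sub_im, ← hy0]
    have e1 : (F₁ (Complex.exp (t * I))).im - y0 = -(Q ζ).re * (κ / 2 * (Q ζ).im + y0) := by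
      simp only [hF₁, ← hζ]
      exact S_im κ y0 (Q ζ)
    rw [e1, Q_im, hζim]
    have e2 : κ / 2 * (2 * (ρ * Real.sin t) / normSq (1 - ζ)) + y0
        = (y0 * (1 + ρ ^ 2) + ρ * M * Real.sin (t - δ)) / normSq (1 - ζ) := by
      rw [eq_div_iff hNpos.ne', add_mul]
      have e3 : κ / 2 * (2 * (ρ * Real.sin t) / normSq (1 - ζ)) * normSq (1 - ζ)
          = κ * (ρ * Real.sin t) := by field_simp
      rw [e3, hNe, Real.sin_sub]
      linear_combination (-(ρ * Real.sin t)) * hcosδ + (ρ * Real.cos t) * hsinδ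
    rw [e2]
    ring
  have hcore := core (F := F₁) (p := fun z => p (ρ * z)) (G := G₁) (R := 1 / ρ) (w := w)
    (θ₁ := δ - β₀) (θ₂ := δ + Real.pi + β₀) hR
    (fun z hz => (hF₁d z hz).differentiableAt.differentiableWithinAt)
    (by simp [hF₁, hQ0, S]) hp₁ (by simpa using hp0)
    (fun z hz => hpos _ (mem_ball_zero_iff.mpr (hmem z hz))) hG₁d (by simp [hG₁, hQ0, hΓ1])
    (by
      intro z hz heq
      have e1 : (F₁ z).im = y0 := by rw [hy0, ← heq]
      have e2 : (G₁ z).re = w.re := by rw [← heq]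
      have hq := Q_re_pos (hmem z hz)
      have e3 := S_im κ y0 (Q (ρ * z))
      have e4 : (S κ y0 (Q (ρ * z))).im = y0 := e1
      rw [e4, sub_self] at e3
      have e5 : κ / 2 * (Q (ρ * z)).im + y0 = 0 := by
        rcases mul_eq_zero.mp e3.symm with h | h
        · linarith
        · exact h
      have e6 : (Q (ρ * z)).im = -(2 * y0 / κ) := by
        field_simp
        linarith
      exact (hray _ hq e6).ne e2)
    (by linarith) (by linarith)
    (by
      intro t ht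
      obtain ⟨N, hN, e⟩ := hsign t
      rw [e]
      have h1 := sin_ge hβ2 (u := t - δ) (by linarith [ht.1]) (by linarith [ht.2])
      rw [hsinβ] at h1
      have h2 : s * (ρ * M) = y0 * (1 + ρ ^ 2) := by rw [hs]; field_simp
      have h3 : 0 ≤ y0 * (1 + ρ ^ 2) + ρ * M * Real.sin (t - δ) := by nlinarith
      have h4 := mul_nonneg hN.le h3
      linarith)
    (by
      intro t ht
      obtain ⟨N, hN, e⟩ := hsign t
      rw [e]
      have h1 := sin_ge (β := -β₀) (by linarith) (u := t - δ - Real.pi)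
        (by linarith [ht.1]) (by linarith [ht.2])
      rw [Real.sin_neg, neg_neg, hsinβ, Real.sin_sub_pi] at h1
      have h2 : s * (ρ * M) = y0 * (1 + ρ ^ 2) := by rw [hs]; field_simp
      have h3 : y0 * (1 + ρ ^ 2) + ρ * M * Real.sin (t - δ) ≤ 0 := by nlinarith
      have h4 := mul_nonneg hN.le (neg_nonneg.mpr h3)
      linarith)
  rw [(hF₁d 0 h0R).deriv, mul_zero, hQ0, sub_zero, mul_one, one_pow, div_one] at hcore
  have e1 : (-((κ : ℂ) / 2) - I * y0) * (2 * (ρ : ℂ)) = -((ρ : ℂ) * A) := by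
    rw [hA]; ring
  rw [e1, norm_neg, norm_mul, Complex.norm_real, Real.norm_eq_abs, abs_of_pos hρ0] at hcore
  linarith

/-- The Cayley map from the half-plane to the disc. -/
noncomputable def T (q : ℂ) : ℂ := (q - 1) / (q + 1)

theorem add_one_ne {q : ℂ} (h : -1 < q.re) : q + 1 ≠ 0 := by
  intro h0
  have := congrArg Complex.re h0
  simp at this
  linarith

theorem T_deriv {q : ℂ} (h : -1 < q.re) : HasDerivAt T (2 / (q + 1) ^ 2) q := by
  have e1 : HasDerivAt (fun q : ℂ => q - 1) 1 q := (hasDerivAt_id q).sub_const 1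
  have e2 : HasDerivAt (fun q : ℂ => q + 1) 1 q := (hasDerivAt_id q).add_const 1
  refine (e1.fun_div e2 (add_one_ne h)).congr_deriv ?_
  ring

theorem T_mem {R : ℝ} (hR : 1 < R) {q : ℂ} (h : -((R - 1) / (R + 1)) < q.re) :
    T q ∈ ball (0 : ℂ) R := by
  have hη1 : (R - 1) / (R + 1) < 1 := by
    rw [div_lt_one (by linarith)]
    linarith
  have hq1 : -1 < q.re := by linarith
  have hne := add_one_ne hq1
  rw [mem_ball_zero_iff, T, norm_div, div_lt_iff₀ (norm_pos_iff.mpr hne)]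
  apply lt_of_pow_lt_pow_left₀ 2 (by positivity)
  rw [mul_pow, ← normSq_eq_norm_sq, ← normSq_eq_norm_sq, normSq_apply, normSq_apply]
  simp only [Complex.sub_re, Complex.sub_im, Complex.add_re, Complex.add_im, Complex.one_re,
    Complex.one_im, sub_zero, add_zero]
  have h1 : 0 < (R + 1) * q.re + (R - 1) := by
    have : (R + 1) * (-((R - 1) / (R + 1))) < (R + 1) * q.re :=
      mul_lt_mul_of_pos_left h (by linarith)
    have e : (R + 1) * (-((R - 1) / (R + 1))) = -(R - 1) := by field_simp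
    linarith
  have h2 : 0 < (R - 1) * q.re + (R + 1) := by nlinarith
  have h3 := mul_pos h1 h2
  nlinarith [mul_nonneg (by nlinarith : 0 ≤ R ^ 2 - 1) (mul_self_nonneg q.im)]

theorem T_mem_closed {q : ℂ} (h : 0 ≤ q.re) : T q ∈ closedBall (0 : ℂ) 1 := by
  have hne := add_one_ne (q := q) (by linarith)
  rw [mem_closedBall_zero_iff, T, norm_div, div_le_one (norm_pos_iff.mpr hne)]
  apply le_of_sq_le_sq _ (norm_nonneg _)
  rw [← normSq_eq_norm_sq, ← normSq_eq_norm_sq, normSq_apply, normSq_apply]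
  simp only [Complex.sub_re, Complex.sub_im, Complex.add_re, Complex.add_im, Complex.one_re,
    Complex.one_im, sub_zero, add_zero]
  nlinarith

theorem one_le_norm_add_one {q : ℂ} (h : 0 ≤ q.re) : 1 ≤ ‖q + 1‖ := by
  have := (le_abs_self _).trans (Complex.abs_re_le_norm (q + 1))
  rw [Complex.add_re, Complex.one_re] at this
  linarith

theorem norm_le_norm_add_one {q : ℂ} (h : 0 ≤ q.re) : ‖q‖ ≤ ‖q + 1‖ := by
  apply le_of_sq_le_sq _ (norm_nonneg _)
  rw [← normSq_eq_norm_sq, ← normSq_eq_norm_sq, normSq_apply, normSq_apply]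
  simp only [Complex.add_re, Complex.add_im, Complex.one_re, Complex.one_im, add_zero]
  nlinarith

/-- The half-line theorem in normalized position. -/
theorem normalized {F p G : ℂ → ℂ} {R κ : ℝ} (hR : 1 < R) (hκ : 0 < κ)
    (hF : DifferentiableOn ℂ F (ball 0 R)) (hF0 : F 0 = 0)
    (hp : DifferentiableOn ℂ p (ball 0 R)) (hp0 : p 0 = 1)
    (hpos : ∀ z ∈ ball (0 : ℂ) R, 0 < (p z).re)
    (hG : ∀ z ∈ ball (0 : ℂ) R, HasDerivAt G (p z * deriv F z) z) (hG0 : G 0 = 0)
    {w : ℂ} (hw : ∀ z ∈ ball (0 : ℂ) R, (F z).im = w.im → (G z).re < w.re)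
    (hd : deriv F 0 = -((κ : ℂ) + 2 * I * w.im)) :
    ‖(κ : ℂ) + 2 * I * w.im‖ ≤ 6 * ‖w‖ := by
  set η : ℝ := (R - 1) / (R + 1) with hη
  have hη0 : 0 < η := div_pos (by linarith) (by linarith)
  have hη1 : η < 1 := by rw [hη, div_lt_one (by linarith)]; linarith
  set U : Set ℂ := {q | -η < q.re} with hU
  have hUo : IsOpen U := isOpen_lt continuous_const Complex.continuous_re
  have hUconv : Convex ℝ U := convex_halfSpace_re_gt (-η)
  have hKU : ∀ q : ℂ, 0 ≤ q.re → q ∈ U := fun q hq => lt_of_lt_of_le (neg_lt_zero.mpr hη0) hq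
  have hU1 : ∀ q ∈ U, -1 < q.re := fun q hq => by
    have : -η < q.re := hq
    linarith
  have hTU : ∀ q ∈ U, T q ∈ ball (0 : ℂ) R := fun q hq => T_mem hR hq
  have hTd : ∀ q ∈ U, HasDerivAt T (2 / (q + 1) ^ 2) q := fun q hq => T_deriv (hU1 q hq)
  have hFd : ∀ z ∈ ball (0 : ℂ) R, HasDerivAt F (deriv F z) z := fun z hz =>
    (hF.differentiableAt (isOpen_ball.mem_nhds hz)).hasDerivAt
  have hpd : ∀ z ∈ ball (0 : ℂ) R, HasDerivAt p (deriv p z) z := fun z hz =>
    (hp.differentiableAt (isOpen_ball.mem_nhds hz)).hasDerivAt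
  have hsub : closedBall (0 : ℂ) 1 ⊆ ball 0 R := closedBall_subset_ball hR
  have hT1 : T 1 = 0 := by simp [T]
  -- bounds on the closed disc
  obtain ⟨C₁, hC₁⟩ := (isCompact_closedBall (0 : ℂ) 1).exists_bound_of_continuousOn
    ((hF.analyticOnNhd isOpen_ball).deriv.continuousOn.mono hsub)
  obtain ⟨C₂, hC₂⟩ := (isCompact_closedBall (0 : ℂ) 1).exists_bound_of_continuousOn
    (hp.continuousOn.mono hsub)
  obtain ⟨C₃, hC₃⟩ := (isCompact_closedBall (0 : ℂ) 1).exists_bound_of_continuousOn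
    ((hp.analyticOnNhd isOpen_ball).deriv.continuousOn.mono hsub)
  have h0cl : (0 : ℂ) ∈ closedBall (0 : ℂ) 1 := by simp
  have hC₁0 : 0 ≤ C₁ := (norm_nonneg _).trans (hC₁ 0 h0cl)
  have hC₂0 : 0 ≤ C₂ := (norm_nonneg _).trans (hC₂ 0 h0cl)
  have hC₃0 : 0 ≤ C₃ := (norm_nonneg _).trans (hC₃ 0 h0cl)
  have hplip : ∀ z ∈ closedBall (0 : ℂ) 1, ‖p z - p 1‖ ≤ C₃ * ‖z - 1‖ := by
    intro z hz
    exact (convex_closedBall (0 : ℂ) 1).norm_image_sub_le_of_norm_hasDerivWithin_le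
      (fun x hx => (hpd x (hsub hx)).hasDerivWithinAt) hC₃ (by simp) hz
  -- the primitive
  have hPdiff : DifferentiableOn ℂ (fun q => p (T q)) U := fun q hq =>
    ((hpd _ (hTU q hq)).comp q (hTd q hq)).differentiableAt.differentiableWithinAt
  obtain ⟨Γ₀, hΓ₀⟩ := hUconv.exists_forall_hasDerivWithinAt
    (f := fun q => p (T q) * (-((κ : ℂ) / 2) * q - I * w.im))
    (hPdiff.mul (((differentiableOn_id).const_mul _).sub_const _))
  set Γ : ℂ → ℂ := fun q => Γ₀ q - Γ₀ 1 with hΓdef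
  have hΓ : ∀ q ∈ U, HasDerivAt Γ (p (T q) * (-((κ : ℂ) / 2) * q - I * w.im)) q := by
    intro q hq
    have := (hΓ₀ q hq).hasDerivAt (hUo.mem_nhds hq)
    exact this.sub_const (Γ₀ 1)
  have hΦd : ∀ q ∈ U, HasDerivAt (fun q => F (T q)) (deriv F (T q) * (2 / (q + 1) ^ 2)) q :=
    fun q hq => (hFd _ (hTU q hq)).comp q (hTd q hq)
  have h1U : (1 : ℂ) ∈ U := hKU 1 (by simp)
  have h2b : ∀ q : ℂ, 0 ≤ q.re → ‖(2 : ℂ) / (q + 1) ^ 2‖ ≤ 2 := by
    intro q hq
    rw [norm_div, norm_pow, Complex.norm_ofNat]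
    rw [div_le_iff₀ (by have := one_le_norm_add_one hq; positivity)]
    have := one_le_norm_add_one hq
    nlinarith
  have hend := qcore (κ := κ) (y0 := w.im) (x0 := w.re) (η := η) (C := 2 * C₁ + C₂ + 2 * C₃)
    (Φ := fun q => F (T q)) (𝒢 := fun q => G (T q)) (P := fun q => p (T q)) (Γ := Γ) (Pi := p 1)
    hκ hη0 (fun q hq => (hΦd q hq).differentiableAt.differentiableWithinAt) hPdiff
    (fun q hq => hpos _ (hTU q hq))
    (by
      intro q hq
      rw [(hΦd q hq).deriv]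
      exact ((hG _ (hTU q hq)).comp q (hTd q hq)).congr_deriv (by ring))
    hΓ (by simp only [hT1, hF0])
    (by
      rw [(hΦd 1 h1U).deriv, hT1, hd]
      ring)
    (by simp only [hT1, hG0]) (by simp only [hΓdef, sub_self]) (by simp only [hT1, hp0])
    (hpos 1 (hsub (by simp)))
    (by
      intro q hq
      rw [(hΦd q (hKU q hq)).deriv, norm_mul]
      have e1 := mul_le_mul (hC₁ _ (T_mem_closed hq)) (h2b q hq) (norm_nonneg _) hC₁0
      linarith)
    (by
      intro q hq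
      have := hC₂ _ (T_mem_closed hq)
      linarith)
    (by
      intro q hq
      have e1 := hplip _ (T_mem_closed hq)
      have hne := add_one_ne (q := q) (by linarith)
      have hpos1 : 0 < ‖q + 1‖ := norm_pos_iff.mpr hne
      have e2 : T q - 1 = -(2 / (q + 1)) := by
        rw [T]; field_simp; ring
      rw [e2, norm_neg, norm_div, Complex.norm_ofNat] at e1
      have e3 := mul_le_mul_of_nonneg_right e1 (norm_nonneg q)
      have e4 : C₃ * (2 / ‖q + 1‖) * ‖q‖ ≤ 2 * C₃ := by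
        have e5 : C₃ * (2 / ‖q + 1‖) * ‖q‖ = 2 * C₃ * (‖q‖ / ‖q + 1‖) := by ring
        rw [e5]
        have e6 : ‖q‖ / ‖q + 1‖ ≤ 1 := (div_le_one hpos1).mpr (norm_le_norm_add_one hq)
        have := mul_le_mul_of_nonneg_left e6 (by positivity : 0 ≤ 2 * C₃)
        linarith
      linarith)
    (by
      intro q hq h1
      exact hw _ (hTU q (hKU q hq.ge)) h1)
  exact slit_core hκ (hp.mono (ball_subset_ball hR.le)) hp0
    (fun z hz => hpos z (ball_subset_ball hR.le hz)) (fun q hq => hΓ q (hKU q hq))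
    (fun q hq => hpos _ (hTU q (hKU q hq.le))) (by simp only [hΓdef, sub_self]) hend

/-- **The half-line theorem** for the shear data. -/
theorem hl_core {F p G : ℂ → ℂ} {R : ℝ} (hR : 1 < R)
    (hF : DifferentiableOn ℂ F (ball 0 R)) (hF0 : F 0 = 0)
    (hp : DifferentiableOn ℂ p (ball 0 R)) (hp0 : p 0 = 1)
    (hpos : ∀ z ∈ ball (0 : ℂ) R, 0 < (p z).re)
    (hG : ∀ z ∈ ball (0 : ℂ) R, HasDerivAt G (p z * deriv F z) z) (hG0 : G 0 = 0)
    {w : ℂ} (hw : ∀ z ∈ ball (0 : ℂ) R, (F z).im = w.im → (G z).re < w.re) :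
    ‖deriv F 0‖ ≤ 6 * ‖w‖ := by
  by_contra hcon
  push Not at hcon
  set A : ℂ := deriv F 0 with hA
  have hyw : |w.im| ≤ ‖w‖ := Complex.abs_im_le_norm w
  have hA0 : 0 < ‖A‖ := lt_of_le_of_lt (by positivity) hcon
  have hAne : A ≠ 0 := norm_pos_iff.mp hA0
  have hsq : 0 < ‖A‖ ^ 2 - (2 * w.im) ^ 2 := by
    have h1 : (2 * w.im) ^ 2 = 4 * |w.im| ^ 2 := by rw [sq_abs]; ring
    rw [h1]
    nlinarith [abs_nonneg w.im, norm_nonneg w]
  set κ : ℝ := Real.sqrt (‖A‖ ^ 2 - (2 * w.im) ^ 2) with hκdef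
  have hκ : 0 < κ := Real.sqrt_pos.mpr hsq
  set B : ℂ := (κ : ℂ) + 2 * I * w.im with hB
  have hBn : ‖B‖ = ‖A‖ := by
    have h1 : ‖B‖ ^ 2 = ‖A‖ ^ 2 := by
      rw [← normSq_eq_norm_sq B, normSq_apply]
      have e1 : B.re = κ := by simp [hB]
      have e2 : B.im = 2 * w.im := by simp [hB]
      have e3 : κ * κ = ‖A‖ ^ 2 - (2 * w.im) ^ 2 := Real.mul_self_sqrt hsq.le
      rw [e1, e2, e3]
      ring
    exact (sq_eq_sq₀ (norm_nonneg _) (norm_nonneg _)).mp h1
  set u : ℂ := -B / A with hu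
  have hun : ‖u‖ = 1 := by
    rw [hu, norm_div, norm_neg, hBn, div_self hA0.ne']
  have hmem : ∀ z ∈ ball (0 : ℂ) R, u * z ∈ ball (0 : ℂ) R := by
    intro z hz
    rw [mem_ball_zero_iff] at hz ⊢
    rw [norm_mul, hun, one_mul]
    exact hz
  have hud : ∀ z : ℂ, HasDerivAt (fun z : ℂ => u * z) u z := fun z => by
    simpa using (hasDerivAt_id z).const_mul u
  have hFd : ∀ z ∈ ball (0 : ℂ) R, HasDerivAt (fun z => F (u * z)) (deriv F (u * z) * u) z :=
    fun z hz => (hF.differentiableAt (isOpen_ball.mem_nhds (hmem z hz))).hasDerivAt.comp z (hud z)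
  have h0R : (0 : ℂ) ∈ ball (0 : ℂ) R := mem_ball_self (by linarith)
  have hres := normalized (F := fun z => F (u * z)) (p := fun z => p (u * z))
    (G := fun z => G (u * z)) (w := w) hR hκ
    (fun z hz => (hFd z hz).differentiableAt.differentiableWithinAt) (by simpa using hF0)
    (fun z hz => ((hp.differentiableAt (isOpen_ball.mem_nhds (hmem z hz))).comp z
      (hud z).differentiableAt).differentiableWithinAt) (by simpa using hp0)
    (fun z hz => hpos _ (hmem z hz))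
    (by
      intro z hz
      rw [(hFd z hz).deriv]
      exact ((hG _ (hmem z hz)).comp z (hud z)).congr_deriv (by ring))
    (by simpa using hG0) (fun z hz => hw _ (hmem z hz))
    (by
      rw [(hFd 0 h0R).deriv, mul_zero, ← hA, ← hB, hu]
      field_simp)
  rw [← hB, hBn] at hres
  linarith

end Pool.Agent.Lib.MP4cd976.HL
end
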